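import Mathlib

/-!
# Many products of `r` distinct odd primes up to `y`
-/

namespace HFact

open Finset Nat

/-- A form of Chebyshev's lower bound. -/
lemma le_primeCounting_succ_mul (n : ℕ) : n ≤ (Nat.primeCounting n + 1) * (Nat.log 2 n + 1) := by
  rcases Nat.eq_zero_or_pos n with rfl | hn
  · simp
  have h1 := Chebyshev.psi_ge n
  have h2 := Chebyshev.psi_le_primeCounting_mul_log n
  have hlt : n + 1 ≤ 2 ^ (Nat.log 2 n + 1) := Nat.lt_pow_succ_log_self (by norm_num) n
  have h3 : Real.log (n + 1) ≤ (Nat.log 2 n + 1) * Real.log 2 := by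
    have e : ((Nat.log 2 n : ℝ) + 1) * Real.log 2 = Real.log (2 ^ (Nat.log 2 n + 1)) := by
      rw [Real.log_pow]
      push_cast
      ring
    rw [e]
    apply Real.log_le_log (by positivity)
    exact_mod_cast hlt
  have h4 : Real.log n ≤ (Nat.log 2 n + 1) * Real.log 2 := by
    refine le_trans ?_ h3
    apply Real.log_le_log (by exact_mod_cast hn)
    linarith
  have hl2 : 0 < Real.log 2 := Real.log_pos (by norm_num)
  have h5 : (n : ℝ) * Real.log 2 ≤
      ((Nat.primeCounting n + 1) * (Nat.log 2 n + 1)) * Real.log 2 := by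
    have h6 : (Nat.primeCounting n : ℝ) * Real.log n ≤
        Nat.primeCounting n * ((Nat.log 2 n + 1) * Real.log 2) :=
      mul_le_mul_of_nonneg_left h4 (by positivity)
    nlinarith
  have h7 := le_of_mul_le_mul_right h5 hl2
  exact_mod_cast h7

lemma two_pow_le_centralBinom (r : ℕ) : 2 ^ r ≤ Nat.centralBinom r := by
  induction r with
  | zero => simp
  | succ n ih =>
    have h := Nat.succ_mul_centralBinom_succ n
    have h2 : (n + 1) * (2 * Nat.centralBinom n) ≤ (n + 1) * Nat.centralBinom (n + 1) := by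
      rw [h]
      nlinarith [Nat.zero_le (Nat.centralBinom n), Nat.zero_le n]
    have h3 := Nat.le_of_mul_le_mul_left h2 (Nat.succ_pos n)
    rw [pow_succ]
    omega

/-- The odd primes up to `y`. -/
def oddPrimes (y : ℕ) : Finset ℕ := (Finset.range (y + 1)).filter fun p => p.Prime ∧ p ≠ 2

lemma le_card_oddPrimes {y r : ℕ} (hy : 32 ≤ y) (hr : 4 * r * Nat.log 2 y ≤ y) :
    2 * r ≤ (oddPrimes y).card := by
  have h1 : Nat.primeCounting y ≤ (oddPrimes y).card + 1 := by
    rw [Nat.primeCounting, Nat.primeCounting', Nat.count_eq_card_filter_range]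
    have h2 : (Finset.range (y + 1)).filter Nat.Prime ⊆ insert 2 (oddPrimes y) := by
      intro p hp
      rw [Finset.mem_filter] at hp
      by_cases h : p = 2
      · rw [h]
        exact Finset.mem_insert_self _ _
      · exact Finset.mem_insert_of_mem (Finset.mem_filter.2 ⟨hp.1, hp.2, h⟩)
    exact (Finset.card_le_card h2).trans (Finset.card_insert_le _ _)
  have h2 := le_primeCounting_succ_mul y
  set l := Nat.log 2 y with hl
  have hl5 : 5 ≤ l := by
    rw [hl]
    exact Nat.le_log_of_pow_le (by norm_num) (by norm_num; exact hy)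
  have hyl : 4 * (l + 1) < y := by
    have h3 : 2 ^ l ≤ y := Nat.pow_log_le_self 2 (by omega)
    have h4 : ∀ m : ℕ, 5 ≤ m → 4 * (m + 1) < 2 ^ m := by
      intro m hm
      induction m, hm using Nat.le_induction with
      | base => norm_num
      | succ m hm ih => rw [pow_succ]; omega
    exact (h4 l hl5).trans_le h3
  by_contra hcon
  push Not at hcon
  have h3 : Nat.primeCounting y + 1 ≤ 2 * r + 1 := by omega
  have h4 : y ≤ (2 * r + 1) * (l + 1) := h2.trans (Nat.mul_le_mul_right _ h3)
  have h5 : 4 * r * 5 ≤ y := le_trans (Nat.mul_le_mul_left _ hl5) hr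
  nlinarith

/-- Many products of `r` distinct odd primes up to `y`. -/
theorem exists_prod_primes {y r : ℕ} (hy : 32 ≤ y) (hr : 4 * r * Nat.log 2 y ≤ y) :
    ∃ W : Finset ℕ, 2 ^ r ≤ W.card ∧ ∀ w ∈ W, 0 < w ∧ Odd w ∧ Squarefree w ∧
      w.primeFactors.card = r ∧ (∀ p : ℕ, p.Prime → p ∣ w → p ≤ y) ∧ w ≤ y ^ r := by
  classical
  have hP : ∀ s ∈ (oddPrimes y).powersetCard r, ∀ p ∈ s, p.Prime := by
    intro s hs p hp
    rw [Finset.mem_powersetCard] at hs
    exact (Finset.mem_filter.1 (hs.1 hp)).2.1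
  have hinj : Set.InjOn (fun s : Finset ℕ => ∏ p ∈ s, p)
      ((oddPrimes y).powersetCard r : Set (Finset ℕ)) := by
    intro s hs t ht hst
    have h1 := Nat.primeFactors_prod (hP s hs)
    have h2 := Nat.primeFactors_prod (hP t ht)
    simp only at hst
    rw [← h1, ← h2, hst]
  refine ⟨((oddPrimes y).powersetCard r).image fun s => ∏ p ∈ s, p, ?_, ?_⟩
  · rw [Finset.card_image_of_injOn hinj, Finset.card_powersetCard]
    calc 2 ^ r ≤ Nat.centralBinom r := two_pow_le_centralBinom r
      _ = (2 * r).choose r := rfl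
      _ ≤ _ := Nat.choose_le_choose r (le_card_oddPrimes hy hr)
  · intro w hw
    obtain ⟨s, hs, rfl⟩ := Finset.mem_image.1 hw
    have hpf := Nat.primeFactors_prod (hP s hs)
    have hs' := hs
    rw [Finset.mem_powersetCard] at hs'
    have hmem : ∀ p ∈ s, p ≤ y ∧ p ≠ 2 := by
      intro p hp
      have := Finset.mem_filter.1 (hs'.1 hp)
      exact ⟨Nat.lt_succ_iff.1 (Finset.mem_range.1 this.1), this.2.2⟩
    refine ⟨Finset.prod_pos fun p hp => (hP s hs p hp).pos, ?_, ?_, ?_, ?_, ?_⟩
    · rw [← Nat.not_even_iff_odd, even_iff_two_dvd]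
      intro h
      obtain ⟨p, hp, hd⟩ := (Nat.prime_two.prime.dvd_finsetProd_iff _).1 h
      exact (hmem p hp).2 ((Nat.prime_dvd_prime_iff_eq Nat.prime_two (hP s hs p hp)).1 hd).symm
    · apply Finset.squarefree_prod_of_pairwise_isCoprime
      · intro p hp q hq hpq
        exact Nat.coprime_iff_isRelPrime.1
          ((Nat.coprime_primes (hP s hs p hp) (hP s hs q hq)).2 hpq)
      · intro p hp
        exact (hP s hs p hp).squarefree
    · rw [hpf, hs'.2]
    · intro p hp hd
      have : p ∈ (∏ p ∈ s, p).primeFactors :=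
        Nat.mem_primeFactors.2 ⟨hp, hd, (Finset.prod_pos fun p hp => (hP s hs p hp).pos).ne'⟩
      rw [hpf] at this
      exact (hmem p this).1
    · calc ∏ p ∈ s, p ≤ ∏ _p ∈ s, y := Finset.prod_le_prod' fun p hp => (hmem p hp).1
        _ = y ^ r := by rw [Finset.prod_const, hs'.2]

end HFact
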