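import Mathlib
import Pool.Prelude.Def_F_ad5dc939

/-!
# From representations of small numbers to `h(n!)`
-/

namespace HFact

open Finset

/-- Every `m ≤ M` is a sum of at most `K` distinct divisors of `M`. -/
def Rep (M K : ℕ) : Prop := ∀ m ≤ M, ∃ D : Finset ℕ, D ⊆ M.divisors ∧ D.card ≤ K ∧ ∑ d ∈ D, d = m

lemma Rep.mono {M K K' : ℕ} (h : Rep M K) (hK : K ≤ K') : Rep M K' := by
  intro m hm
  obtain ⟨D, h1, h2, h3⟩ := h m hm
  exact ⟨D, h1, h2.trans hK, h3⟩

lemma Rep.practicalH_le {M K : ℕ} (h : Rep M K) : Ne5293178.practicalH M ≤ K := by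
  unfold Ne5293178.practicalH
  apply Finset.sup_le
  intro m hm
  obtain ⟨D, h1, h2, h3⟩ := h m (Finset.mem_Icc.1 hm).2
  refine le_trans (Nat.sInf_le ?_) h2
  exact ⟨D, h1, rfl, D, subset_rfl, h3.symm⟩

/-- Divisors of the two kinds. -/
lemma Rep.mul {M Q K K' : ℕ} (hQ : 0 < Q) (hM : 0 < M) (h : Rep M K)
    (h' : ∀ r < Q, ∃ D : Finset ℕ, D ⊆ (Q * M).divisors ∧ D.card ≤ K' ∧ ∑ d ∈ D, d = r) :
    Rep (Q * M) (K + K') := by
  intro m hm
  obtain ⟨D1, a1, a2, a3⟩ := h (m / Q) (by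
    calc m / Q ≤ Q * M / Q := Nat.div_le_div_right hm
      _ = M := Nat.mul_div_cancel_left M hQ)
  obtain ⟨D2, b1, b2, b3⟩ := h' (m % Q) (Nat.mod_lt _ hQ)
  have hdisj : Disjoint (D1.image (Q * ·)) D2 := by
    rw [Finset.disjoint_left]
    intro x hx hx2
    obtain ⟨d, hd, rfl⟩ := Finset.mem_image.1 hx
    have h1 : Q * d ≤ m % Q := by
      rw [← b3]
      exact Finset.single_le_sum (f := fun x => x) (fun _ _ => Nat.zero_le _) hx2
    have h2 : 0 < d := Nat.pos_of_mem_divisors (a1 hd)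
    have h3 : Q ≤ Q * d := Nat.le_mul_of_pos_right Q h2
    have h4 := Nat.mod_lt m hQ
    omega
  refine ⟨D1.image (Q * ·) ∪ D2, ?_, ?_, ?_⟩
  · apply Finset.union_subset _ b1
    intro x hx
    obtain ⟨d, hd, rfl⟩ := Finset.mem_image.1 hx
    rw [Nat.mem_divisors]
    exact ⟨Nat.mul_dvd_mul_left Q (Nat.dvd_of_mem_divisors (a1 hd)), by positivity⟩
  · calc _ ≤ (D1.image (Q * ·)).card + D2.card := Finset.card_union_le _ _
      _ ≤ K + K' := Nat.add_le_add (Finset.card_image_le.trans a2) b2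
  · rw [Finset.sum_union hdisj, Finset.sum_image, b3, ← Finset.mul_sum, a3, Nat.div_add_mod]
    intro x _ y _ hxy
    exact Nat.eq_of_mul_eq_mul_left hQ hxy

/-- Factorials are practical. -/
lemma rep_base (n : ℕ) : Rep n.factorial (n + 1) := by
  induction n with
  | zero =>
    intro m hm
    rw [Nat.factorial_zero] at hm
    interval_cases m
    · exact ⟨∅, by simp, by simp, by simp⟩
    · exact ⟨{1}, by simp, by simp, by simp⟩
  | succ n ih =>
    rw [Nat.factorial_succ]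
    refine (Rep.mul (Nat.succ_pos n) (Nat.factorial_pos n) ih (K' := 1) ?_)
    intro r hr
    rcases Nat.eq_zero_or_pos r with rfl | hr0
    · exact ⟨∅, by simp, by simp, by simp⟩
    · refine ⟨{r}, ?_, by simp, by simp⟩
      rw [Finset.singleton_subset_iff, Nat.mem_divisors]
      exact ⟨(Nat.dvd_factorial hr0 (Nat.lt_succ_iff.1 hr)).mul_left _,
        mul_ne_zero (Nat.succ_ne_zero n) (Nat.factorial_ne_zero n)⟩

lemma two_pow_dvd_factorial (n : ℕ) : 2 ^ (n / 2) ∣ n.factorial := by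
  have h : ∀ k : ℕ, 2 ^ k ∣ (2 * k).factorial := by
    intro k
    induction k with
    | zero => simp
    | succ k ih =>
      rw [show 2 * (k + 1) = 2 * k + 1 + 1 by ring, Nat.factorial_succ, Nat.factorial_succ, pow_succ,
        mul_comm (2 ^ k)]
      exact mul_dvd_mul ⟨k + 1, by ring⟩ (ih.mul_left _)
  exact (h (n / 2)).trans (Nat.factorial_dvd_factorial (by omega))

lemma squarefree_dvd_factorial {n w : ℕ} (hw : Squarefree w)
    (hp : ∀ p : ℕ, p.Prime → p ∣ w → p ≤ n) : w ∣ n.factorial := by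
  rw [← Nat.prod_primeFactors_of_squarefree hw]
  apply Finset.prod_primes_dvd
  · intro p hp'
    exact (Nat.prime_of_mem_primeFactors hp').prime
  · intro p hp'
    have h1 := Nat.prime_of_mem_primeFactors hp'
    exact Nat.dvd_factorial h1.pos (hp p h1 (Nat.dvd_of_mem_primeFactors hp'))

/-- The shape of the summands. -/
def Shape (n d : ℕ) : Prop := ∃ e w : ℕ, Odd w ∧ Squarefree w ∧
  (∀ p : ℕ, p.Prime → p ∣ w → p ≤ n) ∧ d = 2 ^ e * w

lemma Shape.two {n d : ℕ} (h : Shape n d) : Shape n (d + d) := by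
  obtain ⟨e, w, h1, h2, h3, rfl⟩ := h
  exact ⟨e + 1, w, h1, h2, h3, by rw [pow_succ]; ring⟩

lemma Shape.dvd {n d : ℕ} (h : Shape n d) (hd : d < 2 ^ (n / 2)) : d ∣ n.factorial := by
  obtain ⟨e, w, h1, h2, h3, rfl⟩ := h
  have hw : 0 < w := h1.pos
  have he : e ≤ n / 2 := by
    by_contra hcon
    have h4 : 2 ^ (n / 2) ≤ 2 ^ e := Nat.pow_le_pow_right (by norm_num) (by omega)
    have h5 : 2 ^ e ≤ 2 ^ e * w := Nat.le_mul_of_pos_right _ hw
    omega
  apply Nat.Coprime.mul_dvd_of_dvd_of_dvd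
  · exact Nat.Coprime.pow_left e (Nat.coprime_two_left.2 h1)
  · exact (pow_dvd_pow 2 he).trans (two_pow_dvd_factorial n)
  · exact squarefree_dvd_factorial h2 h3

/-- Merging equal summands. -/
lemma exists_nodup {n N K : ℕ} (h : ∃ s : Multiset ℕ, s.card ≤ K ∧ (∀ d ∈ s, Shape n d) ∧
    s.sum = N) : ∃ s : Multiset ℕ, s.card ≤ K ∧ (∀ d ∈ s, Shape n d) ∧ s.sum = N ∧ s.Nodup := by
  classical
  set P : ℕ → Prop := fun k => ∃ s : Multiset ℕ, s.card = k ∧ (∀ d ∈ s, Shape n d) ∧ s.sum = N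
    with hP
  have hex : ∃ k, P k := by
    obtain ⟨s, h1, h2, h3⟩ := h
    exact ⟨s.card, s, rfl, h2, h3⟩
  obtain ⟨s, h1, h2, h3⟩ := Nat.find_spec hex
  have hle : Nat.find hex ≤ K := by
    obtain ⟨t, t1, t2, t3⟩ := h
    exact (Nat.find_min' hex ⟨t, rfl, t2, t3⟩).trans t1
  refine ⟨s, h1 ▸ hle, h2, h3, ?_⟩
  by_contra hnd
  rw [Multiset.nodup_iff_count_le_one] at hnd
  push Not at hnd
  obtain ⟨x, hx⟩ := hnd
  have h4 : Multiset.replicate 2 x ≤ s := Multiset.le_count_iff_replicate_le.1 hx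
  obtain ⟨t, rfl⟩ := Multiset.le_iff_exists_add.1 h4
  have h5 : P (t.card + 1) := by
    refine ⟨(x + x) ::ₘ t, by simp, ?_, ?_⟩
    · intro d hd
      rcases Multiset.mem_cons.1 hd with rfl | hd
      · exact (h2 x (Multiset.mem_add.2 (Or.inl (by simp)))).two
      · exact h2 d (Multiset.mem_add.2 (Or.inr hd))
    · rw [← h3]
      simp [Multiset.replicate_succ]
      ring
  have h6 := Nat.find_min' hex h5
  rw [← h1] at h6
  simp at h6

lemma exists_distinct {n N K : ℕ} (hN : N < 2 ^ (n / 2)) (h : ∃ s : Multiset ℕ, s.card ≤ K ∧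
    (∀ d ∈ s, Shape n d) ∧ s.sum = N) :
    ∃ D : Finset ℕ, D ⊆ n.factorial.divisors ∧ D.card ≤ K ∧ ∑ d ∈ D, d = N := by
  classical
  obtain ⟨s, h1, h2, h3, h4⟩ := exists_nodup h
  refine ⟨⟨s, h4⟩, ?_, h1, ?_⟩
  · intro d hd
    have hd' : d ∈ s := hd
    rw [Nat.mem_divisors]
    refine ⟨(h2 d hd').dvd (lt_of_le_of_lt ?_ hN), Nat.factorial_ne_zero n⟩
    rw [← h3]
    exact Multiset.le_sum_of_mem hd'
  · rw [← h3, Finset.sum]
    simp only [Multiset.map_id']

/-- One step of the recursion. -/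
lemma rep_step {n b K K' : ℕ} (hb : b ≤ n) (hpow : n ^ (n - b) ≤ 2 ^ (n / 2))
    (hrep : ∀ N < 2 ^ (n / 2), ∃ s : Multiset ℕ, s.card ≤ K' ∧ (∀ d ∈ s, Shape n d) ∧ s.sum = N)
    (h : Rep b.factorial K) : Rep n.factorial (K + K') := by
  have e : n.descFactorial (n - b) * b.factorial = n.factorial := by
    have := Nat.factorial_mul_descFactorial (Nat.sub_le n b)
    rw [Nat.sub_sub_self hb] at this
    rw [← this]
    ring
  have hQ : 0 < n.descFactorial (n - b) := Nat.descFactorial_pos.2 (Nat.sub_le n b)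
  rw [← e]
  refine Rep.mul hQ (Nat.factorial_pos b) h ?_
  intro r hr
  rw [e]
  have h1 : r < 2 ^ (n / 2) := hr.trans_le ((Nat.descFactorial_le_pow n (n - b)).trans hpow)
  exact exists_distinct h1 (hrep r h1)

lemma pow_div_le {n L : ℕ} (hL : n < 2 ^ L) : n ^ (n / 2 / L) ≤ 2 ^ (n / 2) := by
  calc n ^ (n / 2 / L) ≤ (2 ^ L) ^ (n / 2 / L) := Nat.pow_le_pow_left hL.le _
    _ = 2 ^ (L * (n / 2 / L)) := by rw [pow_mul]
    _ ≤ 2 ^ (n / 2) := Nat.pow_le_pow_right (by norm_num) (Nat.mul_div_le _ _)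

lemma harmonic_add (b t : ℕ) (s : ℕ) (hs : s ≤ t) :
    (harmonic b : ℝ) + s / (b + t) ≤ harmonic (b + s) := by
  induction s with
  | zero => simp
  | succ s ih =>
    have h1 := ih (by omega)
    rw [← add_assoc, harmonic_succ]
    push_cast
    have h2 : (1 : ℝ) / (b + t) ≤ ((b : ℝ) + s + 1)⁻¹ := by
      rw [one_div]
      apply inv_anti₀ (by positivity)
      have : ((s : ℝ) + 1) ≤ t := by exact_mod_cast hs
      linarith
    have h3 : ((s : ℝ) + 1) / (b + t) = s / (b + t) + 1 / (b + t) := by rw [add_div]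
    rw [h3]
    linarith

/-- The recursion. -/
lemma rep_rec {C n₀ : ℕ} (hrep : ∀ n ≥ n₀, ∀ N < 2 ^ (n / 2), ∃ s : Multiset ℕ,
    s.card ≤ C * (Nat.log 2 n + 1) ^ 5 ∧ (∀ d ∈ s, Shape n d) ∧ s.sum = N) (M L : ℕ)
    (hL : L = Nat.log 2 M + 1) (n : ℕ) (hn : n ≤ M) : ∃ K : ℕ, Rep n.factorial K ∧
      (K : ℝ) ≤ n₀ + 4 * L + 3 + C * L ^ 5 * (4 * L) * harmonic n := by
  induction n using Nat.strong_induction_on with
  | _ n ih =>
    have hL1 : 1 ≤ L := by omega
    by_cases hsmall : n < n₀ ∨ n < 4 * L + 2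
    · refine ⟨n + 1, rep_base n, ?_⟩
      have h1 : n + 1 ≤ n₀ + 4 * L + 3 := by omega
      have h2 : ((n + 1 : ℕ) : ℝ) ≤ n₀ + 4 * L + 3 := by exact_mod_cast h1
      have h3 : (0 : ℝ) ≤ harmonic n := by
        have := harmonic_add 0 n n le_rfl
        simp only [harmonic_zero, Rat.cast_zero, zero_add] at this
        refine le_trans ?_ this
        positivity
      have h4 : 0 ≤ (C : ℝ) * L ^ 5 * (4 * L) * harmonic n := by positivity
      linarith
    · push Not at hsmall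
      obtain ⟨hn0, hn4⟩ := hsmall
      obtain ⟨t, ht⟩ : ∃ t, t = n / 2 / L := ⟨_, rfl⟩
      have ht1 : n ≤ 4 * L * t := by
        have h1 : n / 2 < L * (t + 1) := by
          rw [ht]
          exact Nat.lt_mul_div_succ _ (by omega)
        have h2 : n ≤ 2 * (n / 2) + 1 := by omega
        nlinarith
      have ht0 : 1 ≤ t := by
        by_contra h0
        have : t = 0 := by omega
        rw [this] at ht1
        omega
      have htn : t ≤ n := ht ▸ (Nat.div_le_self _ _).trans (Nat.div_le_self _ _)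
      obtain ⟨K, hK1, hK2⟩ := ih (n - t) (by omega) (by omega)
      have hlog : n < 2 ^ L := by
        rw [hL]
        exact (Nat.lt_of_le_of_lt hn (Nat.lt_pow_succ_log_self (by norm_num) M))
      refine ⟨K + C * L ^ 5, ?_, ?_⟩
      · refine rep_step (Nat.sub_le n t) ?_ ?_ hK1
        · rw [Nat.sub_sub_self htn, ht]
          exact pow_div_le hlog
        · intro N hN
          obtain ⟨s, h1, h2, h3⟩ := hrep n hn0 N hN
          refine ⟨s, h1.trans ?_, h2, h3⟩
          apply Nat.mul_le_mul_left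
          apply Nat.pow_le_pow_left
          rw [hL]
          exact Nat.succ_le_succ (Nat.log_mono_right hn)
      · have h1 := harmonic_add (n - t) t t le_rfl
        rw [Nat.sub_add_cancel htn, Nat.cast_sub htn, sub_add_cancel] at h1
        have hnpos : (0 : ℝ) < n := by
          have : 0 < n := by omega
          exact_mod_cast this
        have h2 : (1 : ℝ) ≤ 4 * L * (t / n) := by
          rw [← mul_div_assoc, le_div_iff₀ hnpos, one_mul]
          exact_mod_cast ht1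
        have h3 : (1 : ℝ) ≤ 4 * L * (harmonic n - harmonic (n - t)) := by
          refine h2.trans ?_
          apply mul_le_mul_of_nonneg_left _ (by positivity)
          linarith
        have h4 : (C : ℝ) * L ^ 5 * 1 ≤ C * L ^ 5 * (4 * L * (harmonic n - harmonic (n - t))) :=
          mul_le_mul_of_nonneg_left h3 (by positivity)
        push_cast
        linarith

theorem final (hrep : ∃ C n₀ : ℕ, ∀ n ≥ n₀, ∀ N < 2 ^ (n / 2), ∃ s : Multiset ℕ,
    s.card ≤ C * (Nat.log 2 n + 1) ^ 5 ∧ (∀ d ∈ s, ∃ e w : ℕ, Odd w ∧ Squarefree w ∧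
      (∀ p : ℕ, p.Prime → p ∣ w → p ≤ n) ∧ d = 2 ^ e * w) ∧ s.sum = N) :
    ∃ C : ℝ, 0 < C ∧ ∀ᶠ n : ℕ in Filter.atTop,
      (Ne5293178.practicalH n.factorial : ℝ) < (Real.log n) ^ C := by
  obtain ⟨C, n₀, hrep⟩ := hrep
  refine ⟨8, by norm_num, ?_⟩
  have hlim : Filter.Tendsto (fun n : ℕ => Real.log n) Filter.atTop Filter.atTop :=
    Real.tendsto_log_atTop.comp tendsto_natCast_atTop_atTop
  filter_upwards [hlim.eventually_gt_atTop ((n₀ : ℝ) + 15 + 5832 * C + 1),
    Filter.eventually_ge_atTop 3] with n hn hn3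
  obtain ⟨K, hK1, hK2⟩ := rep_rec hrep n (Nat.log 2 n + 1) rfl n le_rfl
  have h1 : (Ne5293178.practicalH n.factorial : ℝ) ≤ K := by exact_mod_cast hK1.practicalH_le
  set x := Real.log n with hx
  have hx1 : 1 ≤ x := by
    have : (0 : ℝ) ≤ (n₀ : ℝ) + 15 + 5832 * C := by positivity
    linarith
  have hL : ((Nat.log 2 n + 1 : ℕ) : ℝ) ≤ 3 * x := by
    have h2 : (Nat.log 2 n : ℝ) * Real.log 2 ≤ x := by
      have h3 : ((2 : ℝ) ^ (Nat.log 2 n)) ≤ n := by
        exact_mod_cast Nat.pow_log_le_self 2 (by omega)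
      have h4 := Real.log_le_log (by positivity) h3
      rw [Real.log_pow] at h4
      exact h4
    have h5 : (1 / 2 : ℝ) ≤ Real.log 2 := by
      have := Real.log_two_gt_d9
      linarith
    have h6 : (Nat.log 2 n : ℝ) * (1 / 2) ≤ x :=
      (mul_le_mul_of_nonneg_left h5 (by positivity)).trans h2
    push_cast
    linarith
  have hharm : (harmonic n : ℝ) ≤ 2 * x := by
    have := harmonic_le_one_add_log n
    linarith
  have hharm0 : (0 : ℝ) ≤ harmonic n := by
    have := harmonic_add 0 n n le_rfl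
    simp only [harmonic_zero, Rat.cast_zero, zero_add] at this
    refine le_trans ?_ this
    positivity
  have h7 : (K : ℝ) ≤ n₀ + 4 * (3 * x) + 3 + C * (3 * x) ^ 5 * (4 * (3 * x)) * (2 * x) := by
    refine hK2.trans ?_
    gcongr
  have h8 : (K : ℝ) ≤ ((n₀ : ℝ) + 15 + 5832 * C) * x ^ 7 := by
    refine h7.trans ?_
    have hx7 : 1 ≤ x ^ 7 := one_le_pow₀ hx1
    have hx7' : x ≤ x ^ 7 := by
      calc x = x ^ 1 := (pow_one x).symm
        _ ≤ x ^ 7 := pow_le_pow_right₀ hx1 (by norm_num)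
    have e : (C : ℝ) * (3 * x) ^ 5 * (4 * (3 * x)) * (2 * x) = 5832 * C * x ^ 7 := by ring
    rw [e]
    have h9 : (n₀ : ℝ) * 1 ≤ n₀ * x ^ 7 := mul_le_mul_of_nonneg_left hx7 (by positivity)
    linarith
  calc (Ne5293178.practicalH n.factorial : ℝ) ≤ K := h1
    _ ≤ ((n₀ : ℝ) + 15 + 5832 * C) * x ^ 7 := h8
    _ < x * x ^ 7 := by
        apply mul_lt_mul_of_pos_right _ (by positivity)
        linarith
    _ = x ^ (8 : ℕ) := by ring
    _ = x ^ (8 : ℝ) := by
        rw [← Real.rpow_natCast]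
        norm_num

end HFact
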